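import Pool.Agent.helper74.XP.SpecP

/-! xp:EXG -/

set_option autoImplicit false

open Complex Metric Set Filter Topology MeasureTheory MPS PPS Pool.Agent.helper16.Multibrot

noncomputable section

namespace XPP

theorem EXG_TTadd (f : Polynomial ℂ) (q r : ℂ → ℂ) (z : ℂ) :
    TT f (fun y => q y + r y) z = TT f q z + TT f r z := by
  unfold TT
  rw [← Multiset.sum_map_add]
  congr 1
  refine Multiset.map_congr rfl fun y _ => ?_
  rw [add_div]

theorem EXG_TTsmul (f : Polynomial ℂ) (c : ℂ) (q : ℂ → ℂ) (z : ℂ) :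
    TT f (fun y => c * q y) z = c * TT f q z := by
  unfold TT
  rw [← Multiset.sum_map_mul_left]
  congr 1
  refine Multiset.map_congr rfl fun y _ => ?_
  rw [mul_div_assoc]

theorem EXG_TTzero (f : Polynomial ℂ) (z : ℂ) : TT f (fun _ => 0) z = 0 := by
  unfold TT
  simp

theorem EXG_TTsum (f : Polynomial ℂ) (J : Finset ℕ) (a : ℕ → ℂ) (q : ℕ → ℂ → ℂ) (z : ℂ) :
    TT f (fun y => ∑ j ∈ J, a j * q j y) z = ∑ j ∈ J, a j * TT f (q j) z := by
  classical
  induction J using Finset.induction_on with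
  | empty => simpa using EXG_TTzero f z
  | insert j J hj ih =>
    simp only [Finset.sum_insert hj]
    rw [EXG_TTadd f (fun y => a j * q j y) (fun y => ∑ i ∈ J, a i * q i y) z, EXG_TTsmul, ih]

theorem EXG_TTcomb (f : Polynomial ℂ) (J : Finset ℕ) (a : ℕ → ℂ) (B : ℂ → ℂ) (q : ℕ → ℂ → ℂ) (z : ℂ) :
    TT f (fun y => B y + -∑ j ∈ J, a j * q j y) z = TT f B z - ∑ j ∈ J, a j * TT f (q j) z := by
  rw [EXG_TTadd f B (fun y => -∑ j ∈ J, a j * q j y) z]
  have h : (fun y => -∑ j ∈ J, a j * q j y) = fun y => (-1 : ℂ) * ∑ j ∈ J, a j * q j y := by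
    funext y
    ring
  rw [h, EXG_TTsmul, EXG_TTsum]
  ring

theorem EXG (hERQ : PPS.ERQ_stmt) : EXG_stmt := by
  intro n f O J C a hn hf hl
  have key : ∀ P : CY f, ∀ᵐ z : ℂ, BB P.b P.g z - TT f (BB P.b P.g) z = TT f (QQ f P.b P.g) z := by
    intro P
    filter_upwards [(hERQ n P.k f P.b P.g hn hf P.cyc P.ex).1] with z hz
    exact hz
  have keyJ : ∀ᵐ z : ℂ, ∀ j ∈ J, BB (C j).b (C j).g z - TT f (BB (C j).b (C j).g) z =
      TT f (QQ f (C j).b (C j).g) z := by
    rw [Filter.eventually_all_finset]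
    exact fun j _ => key (C j)
  have hQ : (fun y => QQ f O.b O.g y + -∑ j ∈ J, a j * QQ f (C j).b (C j).g y) = fun _ => (0 : ℂ) := by
    funext y
    have h1 : QQ f O.b O.g y = ∑ j ∈ J, a j * QQ f (C j).b (C j).g y := by
      unfold QQ
      simp only [Finset.mul_sum (s := Finset.range (f.natDegree - 1))]
      rw [Finset.sum_comm]
      refine Finset.sum_congr rfl fun m hm => ?_
      rw [hl m (by rw [Finset.mem_range, hf] at hm; exact hm), Finset.sum_mul]
      refine Finset.sum_congr rfl fun j _ => ?_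
      ring
    rw [h1]
    ring
  filter_upwards [key O, keyJ] with z hO hJ
  have e1 : TT f (fun z => BB O.b O.g z + rJ J C a z) z =
      TT f (BB O.b O.g) z - ∑ j ∈ J, a j * TT f (BB (C j).b (C j).g) z :=
    EXG_TTcomb f J a (BB O.b O.g) (fun j => BB (C j).b (C j).g) z
  have e2 := EXG_TTcomb f J a (QQ f O.b O.g) (fun j => QQ f (C j).b (C j).g) z
  rw [hQ, EXG_TTzero] at e2
  rw [e1]
  have e3 : ∑ j ∈ J, a j * TT f (QQ f (C j).b (C j).g) z =
      ∑ j ∈ J, a j * (BB (C j).b (C j).g z - TT f (BB (C j).b (C j).g) z) :=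
    Finset.sum_congr rfl fun j hj => by rw [hJ j hj]
  rw [← hO, e3] at e2
  simp only [mul_sub, Finset.sum_sub_distrib] at e2
  unfold rJ CY.B
  linear_combination e2

end XPP
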